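import Mathlib

set_option autoImplicit false

namespace Pool.Agent.H.MP_8315be_lc

open Polynomial

variable {K : Type*} [Field K]

/-- The sequence 0, 1, a, a^2 - 1, ... -/
noncomputable def Ys (a : K[X]) : ℕ → K[X]
  | 0 => 0
  | 1 => 1
  | (n + 2) => a * Ys a (n + 1) - Ys a n

theorem Ys_sol (a : K[X]) (n : ℕ) :
    Ys a (n + 1) ^ 2 - a * Ys a (n + 1) * Ys a n + Ys a n ^ 2 = 1 := by
  induction n with
  | zero => simp [Ys]
  | succ n ih =>
    rw [show Ys a (n + 1 + 1) = a * Ys a (n + 1) - Ys a n from rfl]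
    linear_combination ih

theorem Ys_dickson (a : K[X]) (n : ℕ) :
    2 * Ys a (n + 1) - a * Ys a n = (dickson 1 (1 : K) n).comp a := by
  induction n using Nat.twoStepInduction with
  | zero => simp [Ys]; norm_num
  | one => simp [Ys]; ring
  | more n h0 h1 =>
    rw [dickson_add_two]
    simp only [sub_comp, mul_comp, X_comp, C_comp, map_one, one_comp]
    rw [← h0, ← h1, show Ys a (n + 2 + 1) = a * Ys a (n + 2) - Ys a (n + 1) from rfl,
      show Ys a (n + 1 + 1) = Ys a (n + 2) from rfl,
      show Ys a (n + 2) = a * Ys a (n + 1) - Ys a n from rfl]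
    ring

theorem pell_lt (a : K[X]) (N : ℕ) : ∀ x y : K[X], x.natDegree ≤ N →
    x ^ 2 - a * x * y + y ^ 2 = 1 → y.degree < x.degree →
    ∃ (n : ℕ) (e : K), (e = 1 ∨ e = -1) ∧ x = C e * Ys a (n + 1) ∧ y = C e * Ys a n := by
  induction N with
  | zero =>
    intro x y hN h hlt
    have hy : y = 0 := by
      by_contra hy
      have := natDegree_lt_natDegree hy hlt
      omega
    subst hy
    have : (x - 1) * (x + 1) = 0 := by linear_combination h
    rcases mul_eq_zero.1 this with h1 | h1
    · exact ⟨0, 1, Or.inl rfl, by simp [Ys]; linear_combination h1, by simp [Ys]⟩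
    · exact ⟨0, -1, Or.inr rfl, by simp [Ys]; linear_combination h1, by simp [Ys]⟩
  | succ N ih =>
    intro x y hN h hlt
    by_cases hy : y = 0
    · subst hy
      have : (x - 1) * (x + 1) = 0 := by linear_combination h
      rcases mul_eq_zero.1 this with h1 | h1
      · exact ⟨0, 1, Or.inl rfl, by simp [Ys]; linear_combination h1, by simp [Ys]⟩
      · exact ⟨0, -1, Or.inr rfl, by simp [Ys]; linear_combination h1, by simp [Ys]⟩
    have hn := natDegree_lt_natDegree hy hlt
    have hx : x ≠ 0 := by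
      rintro rfl
      simp at hn
    have hprod : x * (a * y - x) = y ^ 2 - 1 := by linear_combination -h
    have hlt2 : (a * y - x).degree < y.degree := by
      by_cases h0 : a * y - x = 0
      · rw [h0, degree_zero]
        exact bot_lt_iff_ne_bot.2 (by simpa using hy)
      · apply degree_lt_degree
        have h1 : (x * (a * y - x)).natDegree = x.natDegree + (a * y - x).natDegree :=
          natDegree_mul hx h0
        have h2 : (y ^ 2 - 1).natDegree ≤ 2 * y.natDegree := by
          refine (natDegree_sub_le _ _).trans ?_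
          simp [natDegree_pow]
        rw [hprod] at h1
        omega
    obtain ⟨n, e, he, h1, h2⟩ := ih y (a * y - x) (by omega) (by linear_combination h) hlt2
    refine ⟨n + 1, e, he, ?_, h1⟩
    rw [show Ys a (n + 1 + 1) = a * Ys a (n + 1) - Ys a n from rfl]
    linear_combination a * h1 - h2

theorem pell_ne (a : K[X]) (ha : 0 < a.natDegree) (x y : K[X])
    (h : x ^ 2 - a * x * y + y ^ 2 = 1) : x.degree ≠ y.degree := by
  intro hd
  by_cases hx : x = 0
  · subst hx
    have : y = 0 := by simpa using hd.symm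
    subst this
    simp at h
  have hy : y ≠ 0 := by
    rintro rfl
    simp [hx] at hd
  have hn : x.natDegree = y.natDegree := natDegree_eq_of_degree_eq hd
  have ha0 : a ≠ 0 := by
    rintro rfl
    simp at ha
  have h1 : a * x * y = x ^ 2 + y ^ 2 - 1 := by linear_combination -h
  have h2 : (a * x * y).natDegree = a.natDegree + x.natDegree + y.natDegree := by
    rw [natDegree_mul (mul_ne_zero ha0 hx) hy, natDegree_mul ha0 hx]
  have h3 : (x ^ 2 + y ^ 2 - 1).natDegree ≤ 2 * y.natDegree := by
    refine (natDegree_sub_le _ _).trans ?_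
    refine max_le ((natDegree_add_le _ _).trans ?_) (by simp)
    simp [natDegree_pow, hn]
  rw [h1] at h2
  omega

theorem pell (a : K[X]) (ha : 0 < a.natDegree) (x y : K[X])
    (h : x ^ 2 - a * x * y + y ^ 2 = 1) :
    ∃ (n : ℕ) (e : K), (e = 1 ∨ e = -1) ∧ 2 * x - a * y = C e * (dickson 1 (1 : K) n).comp a := by
  rcases lt_or_gt_of_ne (pell_ne a ha x y h) with hlt | hlt
  · obtain ⟨n, e, he, h1, h2⟩ := pell_lt a _ y x le_rfl (by linear_combination h) hlt
    refine ⟨n + 1, -e, ?_, ?_⟩
    · rcases he with rfl | rfl <;> simp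
    · rw [← Ys_dickson, show Ys a (n + 1 + 1) = a * Ys a (n + 1) - Ys a n from rfl, map_neg]
      linear_combination 2 * h2 - a * h1
  · obtain ⟨n, e, he, h1, h2⟩ := pell_lt a _ x y le_rfl h hlt
    refine ⟨n, e, he, ?_⟩
    rw [← Ys_dickson]
    linear_combination 2 * h1 - a * h2

theorem dickson_monic (n : ℕ) :
    (dickson 1 (1 : K) (n + 1)).Monic ∧ (dickson 1 (1 : K) (n + 1)).natDegree = n + 1 ∧
      (dickson 1 (1 : K) n).natDegree = n := by
  induction n with
  | zero =>
    refine ⟨by simp, by simp, ?_⟩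
    rw [dickson_zero]
    have : (3 - ((1 : ℕ) : K[X]) : K[X]) = C 2 := by
      rw [map_ofNat]; norm_num
    rw [this, natDegree_C]
  | succ n ih =>
    obtain ⟨hm, h1, h0⟩ := ih
    have hm2 : (X * dickson 1 (1 : K) (n + 1)).Monic := monic_X.mul hm
    have hd2 : (X * dickson 1 (1 : K) (n + 1)).natDegree = n + 2 := by
      rw [monic_X.natDegree_mul hm, natDegree_X, h1]; omega
    have hlt : (C (1 : K) * dickson 1 (1 : K) n).natDegree <
        (X * dickson 1 (1 : K) (n + 1)).natDegree := by
      rw [hd2, map_one, one_mul, h0]; omega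
    refine ⟨?_, ?_, h1⟩
    · rw [show n + 1 + 1 = n + 2 from rfl, dickson_add_two]
      exact hm2.sub_of_left (degree_lt_degree hlt)
    · rw [show n + 1 + 1 = n + 2 from rfl, dickson_add_two, natDegree_sub_eq_left_of_natDegree_lt hlt,
        hd2]

theorem shift_coeff (P : K[X]) (k : ℕ) (hm : P.Monic) (hk : P.natDegree = k + 1) :
    (taylor 1 P).coeff k = P.coeff k + ((k + 1 : ℕ) : K) := by
  rw [taylor_coeff]
  have h1 : (hasseDeriv k P).natDegree ≤ 1 := by
    have := natDegree_hasseDeriv_le P k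
    omega
  rw [eq_X_add_C_of_natDegree_le_one h1]
  have h2 : P.coeff (1 + k) = 1 := by
    rw [add_comm, ← hk]; exact hm
  simp only [hasseDeriv_coeff, h2, eval_add, eval_mul, eval_C, eval_X, zero_add, Nat.choose_self]
  rw [add_comm 1 k, Nat.choose_succ_self_right]
  push_cast
  ring

theorem dickson_pow (p : ℕ) [Fact p.Prime] [CharP K p] (s : ℕ) :
    dickson 1 (1 : K) (p ^ s) = X ^ (p ^ s) := by
  induction s with
  | zero => simp
  | succ s ih =>
    rw [pow_succ, dickson_one_one_mul, ih, dickson_one_one_charP K p]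
    simp [← pow_mul, mul_comm]

theorem dickson_shift (p : ℕ) [hp : Fact p.Prime] [CharP K p] (n : ℕ) (hn : n ≠ 0) (e : K)
    (h : taylor 1 (dickson 1 (1 : K) n) = dickson 1 (1 : K) n + C e) :
    ∃ s : ℕ, dickson 1 (1 : K) n = X ^ (p ^ s) ∧ e = 1 := by
  obtain ⟨s, k, hk, rfl⟩ := Nat.exists_eq_pow_mul_and_not_dvd hn p hp.out.ne_one
  have hD : dickson 1 (1 : K) (p ^ s * k) = (dickson 1 (1 : K) k) ^ (p ^ s) := by
    rw [dickson_one_one_mul, dickson_pow p]; simp
  have hk0 : k ≠ 0 := by
    rintro rfl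
    simp at hk
  obtain ⟨j, rfl⟩ := Nat.exists_eq_succ_of_ne_zero hk0
  rw [hD, taylor_pow] at h
  set Q := dickson 1 (1 : K) (j + 1) with hQ
  have h1 : (taylor 1 Q - Q) ^ (p ^ s) = C e := by
    rw [sub_pow_char_pow]; linear_combination h
  have h2 : (taylor 1 Q - Q).natDegree = 0 := by
    have := congrArg natDegree h1
    rw [natDegree_pow, natDegree_C] at this
    rcases Nat.mul_eq_zero.1 this with h3 | h3
    · exact absurd h3 (pow_ne_zero _ hp.out.ne_zero)
    · exact h3
  have hj : j = 0 := by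
    by_contra hj
    have h3 : (taylor 1 Q - Q).coeff j = 0 := coeff_eq_zero_of_natDegree_lt (by omega)
    rw [coeff_sub, shift_coeff Q j (dickson_monic j).1 (dickson_monic j).2.1] at h3
    have h4 : ((j + 1 : ℕ) : K) = 0 := by linear_combination h3
    exact hk ((CharP.cast_eq_zero_iff K p _).1 h4)
  subst hj
  have hQX : Q = X := by simp [hQ]
  refine ⟨s, by rw [hD, hQX], ?_⟩
  rw [hQX] at h1
  simp at h1
  exact C_injective (by simpa using h1.symm)

/-- The defining system for the relation b = a ^ (p ^ s). -/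
def Phi {A : Type*} [CommRing A] (a b x y x' y' c : A) : Prop :=
  x ^ 2 - a * x * y + y ^ 2 - 1 = 0 ∧ b - (2 * x - a * y) = 0 ∧
    x' ^ 2 - (a + 1) * x' * y' + y' ^ 2 - 1 = 0 ∧ b + 1 - (2 * x' - (a + 1) * y') = 0 ∧
    b - a * c = 0

theorem comp_inj (a : K[X]) (ha : 0 < a.natDegree) (P Q : K[X]) (h : P.comp a = Q.comp a) :
    P = Q := by
  have h1 : (P - Q).comp a = 0 := by rw [sub_comp, h, sub_self]
  have h2 := congrArg natDegree h1
  rw [natDegree_comp, natDegree_zero] at h2
  have h3 : (P - Q).natDegree = 0 := by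
    rcases Nat.mul_eq_zero.1 h2 with h | h
    · exact h
    · omega
  rw [eq_C_of_natDegree_eq_zero h3] at h1
  rw [C_comp] at h1
  rw [← sub_eq_zero, eq_C_of_natDegree_eq_zero h3, h1]

theorem phi_imp (p : ℕ) [hp : Fact p.Prime] [CharP K p] (a b x y x' y' c : K[X])
    (ha : 0 < a.natDegree) (h : Phi a b x y x' y' c) : ∃ s : ℕ, b = a ^ (p ^ s) := by
  obtain ⟨h1, h2, h3, h4, h5⟩ := h
  have ha' : 0 < (a + 1).natDegree := by
    rw [← C_1, natDegree_add_C]; exact ha
  obtain ⟨n, e, he, hn⟩ := pell a ha x y (by linear_combination h1)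
  obtain ⟨m, e', he', hm⟩ := pell (a + 1) ha' x' y' (by linear_combination h3)
  have hb : b = C e * (dickson 1 (1 : K) n).comp a := by linear_combination h2 + hn
  have hid : C e' * taylor 1 (dickson 1 (1 : K) m) = C e * dickson 1 (1 : K) n + 1 := by
    apply comp_inj a ha
    simp only [mul_comp, C_comp, add_comp, one_comp, taylor_apply, comp_assoc, X_comp, map_one]
    linear_combination hb - h4 - hm
  have he0 : e ≠ 0 := by rcases he with rfl | rfl <;> simp
  have he0' : e' ≠ 0 := by rcases he' with rfl | rfl <;> simp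
  have hmn : m = n := by
    have := congrArg natDegree hid
    rw [natDegree_C_mul he0', natDegree_taylor, ← C_1, natDegree_add_C, natDegree_C_mul he0,
      (dickson_monic m).2.2, (dickson_monic n).2.2] at this
    exact this
  subst hmn
  by_cases hm0 : m = 0
  · exfalso
    subst hm0
    have h2' : (3 - ((1 : ℕ) : K[X]) : K[X]) = C 2 := by
      rw [map_ofNat]; norm_num
    rw [dickson_zero, h2'] at hid hb
    rw [C_comp, ← C_mul] at hb
    have h7 : e * 2 = 0 := by
      by_contra h7
      have h8 : a ∣ C (e * 2) := ⟨c, by linear_combination h5 - hb⟩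
      have := natDegree_le_of_dvd h8 (by simpa using h7)
      rw [natDegree_C] at this
      omega
    have h9 : (2 : K) = 0 := (mul_eq_zero.1 h7).resolve_left he0
    rw [h9] at hid
    simp at hid
  obtain ⟨j, rfl⟩ := Nat.exists_eq_succ_of_ne_zero hm0
  have hee : e' = e := by
    have := congrArg (fun P => coeff P (j + 1)) hid
    simp only [coeff_C_mul, coeff_add] at this
    have h6 := coeff_taylor_natDegree (1 : K) (dickson 1 (1 : K) (j + 1))
    rw [(dickson_monic j).2.1, (dickson_monic j).1.leadingCoeff] at h6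
    have h7 : (dickson 1 (1 : K) (j + 1)).coeff (j + 1) = 1 := by
      have := (dickson_monic (K := K) j).1.coeff_natDegree
      rwa [(dickson_monic j).2.1] at this
    rw [h6, h7, coeff_one] at this
    simpa using this
  subst hee
  have hsq : C e' * C e' = (1 : K[X]) := by rcases he with rfl | rfl <;> simp
  obtain ⟨s, hs, he1⟩ := dickson_shift p (j + 1) hm0 e'
    (by linear_combination C e' * hid - (taylor 1 (dickson 1 (1 : K) (j + 1)) - dickson 1 (1 : K) (j + 1)) * hsq)
  refine ⟨s, ?_⟩
  rw [hb, hs, he1]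
  simp

theorem phi_of (p : ℕ) [hp : Fact p.Prime] [CharP K p] (a : K[X]) (s : ℕ) :
    ∃ x y x' y' c : K[X], Phi a (a ^ (p ^ s)) x y x' y' c := by
  refine ⟨Ys a (p ^ s + 1), Ys a (p ^ s), Ys (a + 1) (p ^ s + 1), Ys (a + 1) (p ^ s),
    a ^ (p ^ s - 1), ?_, ?_, ?_, ?_, ?_⟩
  · linear_combination Ys_sol a (p ^ s)
  · rw [Ys_dickson, dickson_pow p]; simp
  · linear_combination Ys_sol (a + 1) (p ^ s)
  · rw [Ys_dickson, dickson_pow p]; simp [add_pow_char_pow]
  · rw [← pow_succ', Nat.sub_add_cancel (Nat.one_le_iff_ne_zero.2 (pow_ne_zero _ hp.out.ne_zero)),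
      sub_self]

end Pool.Agent.H.MP_8315be_lc
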